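import Pool.Agent.V8H50.FL.Chk

/-!
# Soundness of the checker for bistellar flips
-/

set_option autoImplicit false

namespace Pool.Agent.V8H50.FL

theorem force_eq (n : ℕ) (c : ℕ → Bool) : force n c = c n := by
  cases n <;> rfl

/-- the faces of the complex on `Fin n` with the facets `L` (bitsets) -/
def Kx (n : ℕ) (L : List ℕ) : Set (Finset (Fin n)) := {T | ∃ f ∈ L, ∀ v ∈ T, f.testBit v.val = true}

theorem Kx_down {n : ℕ} {L : List ℕ} : ∀ T ∈ Kx n L, ∀ S, S ⊆ T → S ∈ Kx n L := by
  rintro T ⟨f, hf, h⟩ S hS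
  exact ⟨f, hf, fun v hv => h v (hS hv)⟩

/-- the set of the elements of a list -/
def st (n : ℕ) (l : List ℕ) : Finset (Fin n) := Finset.univ.filter fun v => v.val ∈ l

theorem mem_st {n : ℕ} {l : List ℕ} {v : Fin n} : v ∈ st n l ↔ v.val ∈ l := by
  simp [st]

theorem st_card {n : ℕ} {l : List ℕ} (h : l.Nodup) (hn : ∀ i ∈ l, i < n) : (st n l).card = l.length := by
  have : (st n l).map ⟨Fin.val, Fin.val_injective⟩ = l.toFinset := by
    ext i
    simp only [Finset.mem_map, mem_st, Function.Embedding.coeFn_mk, List.mem_toFinset]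
    constructor
    · rintro ⟨v, hv, rfl⟩
      exact hv
    · intro hi
      exact ⟨⟨i, hn i hi⟩, hi, rfl⟩
  rw [← Finset.card_map, this, List.toFinset_card_of_nodup h]

theorem nbeq {a b : ℕ} (h : a = b) : Nat.beq a b = true := by
  subst h
  induction a with
  | zero => rfl
  | succ n ih => exact ih

theorem rec_f {x c : Bool} (h : @Bool.rec (fun _ => Bool) false x c = true) : c = true ∧ x = true := by
  cases c
  · exact absurd (show false = true from h) Bool.false_ne_true
  · exact ⟨rfl, h⟩

theorem and_t {a b : Bool} (h : and a b = true) : a = true ∧ b = true := by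
  cases a <;> cases b <;> simp_all

theorem sh (i j : ℕ) : (Nat.shiftLeft 1 i).testBit j = decide (i = j) := by
  have : Nat.shiftLeft 1 i = 2 ^ i := Nat.one_shiftLeft i
  rw [this, Nat.testBit_two_pow]

theorem land_sh {w i : ℕ} (h : Nat.land w (Nat.shiftLeft 1 i) = 0) : w.testBit i = false := by
  have h1 : (w &&& Nat.shiftLeft 1 i).testBit i = false := by
    have : w &&& Nat.shiftLeft 1 i = 0 := h
    rw [this, Nat.zero_testBit]
  rw [Nat.testBit_and, sh] at h1
  simpa using h1

theorem addl_ok (n : ℕ) (l : List ℕ) : ∀ (w : ℕ) (c : ℕ → Bool), addl n l w c = true →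
    ∃ w', c w' = true ∧ (∀ i, w'.testBit i = (w.testBit i || decide (i ∈ l))) ∧ l.Nodup ∧ (∀ i ∈ l, i < n) ∧
      ∀ i ∈ l, w.testBit i = false := by
  induction l with
  | nil =>
    intro w c h
    exact ⟨w, h, by simp, List.nodup_nil, by simp, by simp⟩
  | cons i l ih =>
    intro w c h
    obtain ⟨h1, h2⟩ := rec_f h
    obtain ⟨h3, h4⟩ := and_t h1
    have hin : i < n := Nat.le_of_ble_eq_true h3
    have hw : w.testBit i = false := land_sh (Nat.eq_of_beq_eq_true h4)
    have h2' : force (Nat.lor w (Nat.shiftLeft 1 i)) (fun w' => addl n l w' c) = true := h2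
    rw [force_eq] at h2'
    obtain ⟨w', hc, hb, hnd, hlt, hz⟩ := ih _ c h2'
    have hb' : ∀ j, (Nat.lor w (Nat.shiftLeft 1 i)).testBit j = (w.testBit j || decide (i = j)) := by
      intro j
      have : (Nat.lor w (Nat.shiftLeft 1 i)) = w ||| Nat.shiftLeft 1 i := rfl
      rw [this, Nat.testBit_or, sh]
    refine ⟨w', hc, ?_, ?_, ?_, ?_⟩
    · intro j
      rw [hb j, hb' j]
      by_cases hij : i = j
      · subst hij
        simp
      · have : ¬ j = i := fun h => hij h.symm
        simp [hij, this]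
    · rw [List.nodup_cons]
      refine ⟨fun hi => ?_, hnd⟩
      have := hz i hi
      rw [hb' i] at this
      simp at this
    · intro j hj
      rcases List.mem_cons.mp hj with rfl | hj
      · exact hin
      · exact hlt j hj
    · intro j hj
      rcases List.mem_cons.mp hj with rfl | hj
      · exact hw
      · have := hz j hj
        rw [hb' j] at this
        simp only [Bool.or_eq_false_iff] at this
        exact this.1

theorem pass_ok (a b w : ℕ) (l : List ℕ) : ∀ (S R : List ℕ) (c : List ℕ → List ℕ → Bool), pass a b w l S R c = true →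
    ∃ S' R', c S' R' = true ∧ (∀ f, f ∈ S' ↔ f ∈ S ∨ (f ∈ l ∧ a &&& f = a)) ∧
      (∀ f, f ∈ R' ↔ f ∈ R ∨ (f ∈ l ∧ ¬ a &&& f = a)) ∧
      ∀ f ∈ l, (a &&& f = a → f ||| w = w) ∧ (¬ a &&& f = a → ¬ b &&& f = b) := by
  induction l with
  | nil =>
    intro S R c h
    exact ⟨S, R, h, by simp, by simp, by simp⟩
  | cons f l ih =>
    intro S R c h
    have h' : @Bool.rec (fun _ => Bool)
      (@Bool.rec (fun _ => Bool) (pass a b w l S (f :: R) c) false (Nat.beq (Nat.land b f) b))
      (@Bool.rec (fun _ => Bool) false (pass a b w l (f :: S) R c) (Nat.beq (Nat.lor f w) w))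
      (Nat.beq (Nat.land a f) a) = true := h
    cases hA : Nat.beq (Nat.land a f) a with
    | true =>
      rw [hA] at h'
      have hA' : a &&& f = a := Nat.eq_of_beq_eq_true hA
      obtain ⟨h1, h2⟩ := rec_f h'
      have hw : f ||| w = w := Nat.eq_of_beq_eq_true h1
      obtain ⟨S', R', hc, hS, hR, hl⟩ := ih _ _ c h2
      refine ⟨S', R', hc, ?_, ?_, ?_⟩
      · intro g
        rw [hS g]
        constructor
        · rintro (hg | hg)
          · rcases List.mem_cons.mp hg with rfl | hg
            · exact Or.inr ⟨List.mem_cons_self, hA'⟩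
            · exact Or.inl hg
          · exact Or.inr ⟨List.mem_cons_of_mem _ hg.1, hg.2⟩
        · rintro (hg | ⟨hg, hg2⟩)
          · exact Or.inl (List.mem_cons_of_mem _ hg)
          · rcases List.mem_cons.mp hg with rfl | hg
            · exact Or.inl List.mem_cons_self
            · exact Or.inr ⟨hg, hg2⟩
      · intro g
        rw [hR g]
        constructor
        · rintro (hg | hg)
          · exact Or.inl hg
          · exact Or.inr ⟨List.mem_cons_of_mem _ hg.1, hg.2⟩
        · rintro (hg | ⟨hg, hg2⟩)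
          · exact Or.inl hg
          · rcases List.mem_cons.mp hg with rfl | hg
            · exact absurd hA' hg2
            · exact Or.inr ⟨hg, hg2⟩
      · intro g hg
        rcases List.mem_cons.mp hg with rfl | hg
        · exact ⟨fun _ => hw, fun h => absurd hA' h⟩
        · exact hl g hg
    | false =>
      rw [hA] at h'
      have hA' : ¬ a &&& f = a := fun h => by
        have : Nat.beq (Nat.land a f) a = true := nbeq h
        rw [this] at hA
        exact absurd hA (by decide)
      have h'' : @Bool.rec (fun _ => Bool) (pass a b w l S (f :: R) c) false (Nat.beq (Nat.land b f) b) = true := h'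
      cases hB : Nat.beq (Nat.land b f) b with
      | true =>
        rw [hB] at h''
        exact absurd (show false = true from h'') Bool.false_ne_true
      | false =>
        rw [hB] at h''
        have hB' : ¬ b &&& f = b := fun h => by
          have : Nat.beq (Nat.land b f) b = true := nbeq h
          rw [this] at hB
          exact absurd hB (by decide)
        obtain ⟨S', R', hc, hS, hR, hl⟩ := ih _ _ c h''
        refine ⟨S', R', hc, ?_, ?_, ?_⟩
        · intro g
          rw [hS g]
          constructor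
          · rintro (hg | hg)
            · exact Or.inl hg
            · exact Or.inr ⟨List.mem_cons_of_mem _ hg.1, hg.2⟩
          · rintro (hg | ⟨hg, hg2⟩)
            · exact Or.inl hg
            · rcases List.mem_cons.mp hg with rfl | hg
              · exact absurd hg2 hA'
              · exact Or.inr ⟨hg, hg2⟩
        · intro g
          rw [hR g]
          constructor
          · rintro (hg | hg)
            · rcases List.mem_cons.mp hg with rfl | hg
              · exact Or.inr ⟨List.mem_cons_self, hA'⟩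
              · exact Or.inl hg
            · exact Or.inr ⟨List.mem_cons_of_mem _ hg.1, hg.2⟩
          · rintro (hg | ⟨hg, hg2⟩)
            · exact Or.inl (List.mem_cons_of_mem _ hg)
            · rcases List.mem_cons.mp hg with rfl | hg
              · exact Or.inl List.mem_cons_self
              · exact Or.inr ⟨hg, hg2⟩
        · intro g hg
          rcases List.mem_cons.mp hg with rfl | hg
          · exact ⟨fun h => absurd h hA', fun _ => hB'⟩
          · exact hl g hg

theorem mem_ok (f : ℕ) (l : List ℕ) (h : mem f l = true) : f ∈ l := by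
  induction l with
  | nil => exact absurd (show false = true from h) Bool.false_ne_true
  | cons g l ih =>
    have h' : @Bool.rec (fun _ => Bool) (mem f l) true (Nat.beq f g) = true := h
    cases hg : Nat.beq f g with
    | true => rw [Nat.eq_of_beq_eq_true hg]; exact List.mem_cons_self
    | false =>
      rw [hg] at h'
      exact List.mem_cons_of_mem _ (ih h')

theorem memB_ok (w : ℕ) (S : List ℕ) (l : List ℕ) (h : memB w S l = true) :
    ∀ i ∈ l, Nat.xor w (Nat.shiftLeft 1 i) ∈ S := by
  induction l with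
  | nil => simp
  | cons i l ih =>
    obtain ⟨h1, h2⟩ := rec_f h
    rw [force_eq] at h1
    intro j hj
    rcases List.mem_cons.mp hj with rfl | hj
    · exact mem_ok _ _ h1
    · exact ih h2 j hj

theorem notw_ok (w : ℕ) (l : List ℕ) (h : notw w l = true) : ∀ f ∈ l, f ≠ w := by
  induction l with
  | nil => simp
  | cons f l ih =>
    have h' : @Bool.rec (fun _ => Bool) (notw w l) false (Nat.beq f w) = true := h
    cases hf : Nat.beq f w with
    | true =>
      rw [hf] at h'
      exact absurd (show false = true from h') Bool.false_ne_true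
    | false =>
      rw [hf] at h'
      intro g hg
      rcases List.mem_cons.mp hg with rfl | hg
      · intro he
        rw [nbeq he] at hf
        exact absurd hf.symm Bool.false_ne_true
      · exact ih h' g hg

theorem newf_ok (w : ℕ) (l : List ℕ) : ∀ (R : List ℕ) (c : List ℕ → Bool), newf w l R c = true →
    ∃ R', c R' = true ∧ ∀ f, f ∈ R' ↔ f ∈ R ∨ ∃ i ∈ l, f = Nat.xor w (Nat.shiftLeft 1 i) := by
  induction l with
  | nil =>
    intro R c h
    exact ⟨R, h, by simp⟩
  | cons i l ih =>
    intro R c h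
    have h' : force (Nat.xor w (Nat.shiftLeft 1 i)) (fun f => newf w l (f :: R) c) = true := h
    rw [force_eq] at h'
    obtain ⟨R', hc, hR⟩ := ih _ c h'
    refine ⟨R', hc, ?_⟩
    intro f
    rw [hR f]
    simp only [List.mem_cons, exists_eq_or_imp]
    tauto

theorem ne_ok {l : List ℕ} (h : ne l = true) : l ≠ [] := by
  cases l
  · exact absurd h (by decide)
  · simp

theorem len_eq (l : List ℕ) : len l = l.length := by
  induction l with
  | nil => rfl
  | cons i l ih =>
    show Nat.succ (len l) = _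
    rw [ih, List.length_cons]

theorem land_iff {a f : ℕ} {l : List ℕ} (ha : ∀ i, a.testBit i = decide (i ∈ l)) :
    a &&& f = a ↔ ∀ i ∈ l, f.testBit i = true := by
  constructor
  · intro h i hi
    have h1 : (a &&& f).testBit i = a.testBit i := by rw [h]
    rw [Nat.testBit_and, ha i] at h1
    simpa [hi] using h1
  · intro h
    apply Nat.eq_of_testBit_eq
    intro i
    rw [Nat.testBit_and, ha i]
    by_cases hi : i ∈ l
    · simp [hi, h i hi]
    · simp [hi]

/-- a property of complexes with at most `n` vertices which is invariant under bistellar flips with the vertices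
`0, ..., m - 1` -/
def Cl (n m d : ℕ) (P : Set (Finset (Fin n)) → Prop) : Prop :=
  ∀ (K : Set (Finset (Fin n))) (A B : Finset (Fin n)), (∀ T ∈ K, ∀ S, S ⊆ T → S ∈ K) → P K → Disjoint A B →
    A.card + B.card = d → A.Nonempty → B.Nonempty → (∀ v ∈ A ∪ B, v.val < m) → (∀ T ∈ K, A ⊆ T → T ⊆ A ∪ B) →
    (∀ b ∈ B, (A ∪ B).erase b ∈ K) → B ∉ K →
    P {T | (T ∈ K ∧ ¬ A ⊆ T) ∨ (B ⊆ T ∧ T ⊆ A ∪ B ∧ ¬ A ⊆ T)}

theorem step_ok {n m d : ℕ} (hmn : m ≤ n) {P : Set (Finset (Fin n)) → Prop} (hP : Cl n m d P)
    (mv : List ℕ × List ℕ) (L : List ℕ) (c : List ℕ → Bool) (h : step m d mv L c = true) (hL : P (Kx n L)) :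
    ∃ L', c L' = true ∧ P (Kx n L') := by
  obtain ⟨la, lb⟩ := mv
  obtain ⟨h0, h⟩ := rec_f h
  obtain ⟨hna, h0⟩ := and_t h0
  obtain ⟨hnb, hd⟩ := and_t h0
  have hna := ne_ok hna
  have hnb := ne_ok hnb
  have hd : la.length + lb.length = d := by
    rw [← len_eq, ← len_eq]
    exact Nat.eq_of_beq_eq_true hd
  obtain ⟨a, h, ha, hnda, hlta, -⟩ := addl_ok _ _ _ _ h
  obtain ⟨b, h, hb, hndb, hltb, -⟩ := addl_ok _ _ _ _ h
  obtain ⟨w, h, hw, -, -, hdis⟩ := addl_ok _ _ _ _ h
  have ha : ∀ i, a.testBit i = decide (i ∈ la) := by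
    intro i
    rw [ha i, Nat.zero_testBit, Bool.false_or]
  have hb : ∀ i, b.testBit i = decide (i ∈ lb) := by
    intro i
    rw [hb i, Nat.zero_testBit, Bool.false_or]
  have hw : ∀ i, w.testBit i = (decide (i ∈ la) || decide (i ∈ lb)) := by
    intro i
    rw [hw i, ha i]
  have hdis : ∀ i ∈ lb, i ∉ la := by
    intro i hi
    have := hdis i hi
    rw [ha i] at this
    simpa using this
  obtain ⟨S, R, h, hS, hR, hl⟩ := pass_ok _ _ _ _ _ _ _ h
  obtain ⟨h1, h⟩ := rec_f h
  obtain ⟨hm, hnw⟩ := and_t h1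
  have hm := memB_ok _ _ _ hm
  have hnw := notw_ok _ _ hnw
  obtain ⟨L', hc, hL'⟩ := newf_ok _ _ _ _ h
  refine ⟨L', hc, ?_⟩
  have hx : ∀ i j, (Nat.xor w (Nat.shiftLeft 1 i)).testBit j = ((decide (j ∈ la) || decide (j ∈ lb)) ^^ decide (i = j)) := by
    intro i j
    have : Nat.xor w (Nat.shiftLeft 1 i) = w ^^^ Nat.shiftLeft 1 i := rfl
    rw [this, Nat.testBit_xor, sh, hw]
  set A := st n la with hAdef
  set B := st n lb with hBdef
  have hAB : Disjoint A B := by
    rw [Finset.disjoint_left]
    intro v hv hv'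
    exact hdis _ (mem_st.mp hv') (mem_st.mp hv)
  have hfA : ∀ f, (a &&& f = a ↔ ∀ v ∈ A, f.testBit v.val = true) := by
    intro f
    rw [land_iff ha]
    constructor
    · intro h v hv
      exact h _ (mem_st.mp hv)
    · intro h i hi
      exact h ⟨i, lt_of_lt_of_le (hlta i hi) hmn⟩ (mem_st.mpr hi)
  have hfB : ∀ f, (b &&& f = b ↔ ∀ v ∈ B, f.testBit v.val = true) := by
    intro f
    rw [land_iff hb]
    constructor
    · intro h v hv
      exact h _ (mem_st.mp hv)
    · intro h i hi
      exact h ⟨i, lt_of_lt_of_le (hltb i hi) hmn⟩ (mem_st.mpr hi)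
  have hfw : ∀ f, f ||| w = w → ∀ v : Fin n, f.testBit v.val = true → v ∈ A ∪ B := by
    intro f hf v hv
    have h1 : (f ||| w).testBit v.val = w.testBit v.val := by rw [hf]
    rw [Nat.testBit_or, hv, Bool.true_or, hw] at h1
    rw [Finset.mem_union, mem_st, mem_st]
    simpa using h1.symm
  have hxT : ∀ (i : Fin n) (T : Finset (Fin n)), T ⊆ A ∪ B → i ∉ T →
      ∀ v ∈ T, (Nat.xor w (Nat.shiftLeft 1 i.val)).testBit v.val = true := by
    intro i T hT hi v hv
    rw [hx]
    have h1 := hT hv
    rw [Finset.mem_union, mem_st, mem_st] at h1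
    have h2 : ¬ i.val = v.val := fun he => hi (by rw [Fin.ext he]; exact hv)
    simp [h1, h2]
  have hxS : ∀ (i : Fin n) (T : Finset (Fin n)), (∀ v ∈ T, (Nat.xor w (Nat.shiftLeft 1 i.val)).testBit v.val = true) →
      i ∈ A ∪ B → T ⊆ (A ∪ B).erase i := by
    intro i T hT hi v hv
    have h1 := hT v hv
    rw [hx] at h1
    rw [Finset.mem_erase, Finset.mem_union, mem_st, mem_st]
    rw [Finset.mem_union, mem_st, mem_st] at hi
    constructor
    · intro he
      rw [he] at h1
      rcases hi with hi | hi <;> simp [hi] at h1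
    · by_cases hv2 : i.val = v.val
      · rw [← hv2]
        exact hi
      · simpa [hv2] using h1
  have key : Kx n L' = {T | (T ∈ Kx n L ∧ ¬ A ⊆ T) ∨ (B ⊆ T ∧ T ⊆ A ∪ B ∧ ¬ A ⊆ T)} := by
    ext T
    constructor
    · rintro ⟨f, hf, hT⟩
      rcases (hL' f).mp hf with hf | ⟨i, hi, rfl⟩
      · rcases (hR f).mp hf with hf | ⟨hf, hf2⟩
        · exact absurd hf (by simp)
        · refine Or.inl ⟨⟨f, hf, hT⟩, fun hAT => hf2 ((hfA f).mpr fun v hv => hT v (hAT hv))⟩
      · have hi' : (⟨i, lt_of_lt_of_le (hlta i hi) hmn⟩ : Fin n) ∈ A := mem_st.mpr hi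
        have hT' := hxS ⟨i, lt_of_lt_of_le (hlta i hi) hmn⟩ T hT (Finset.mem_union_left _ hi')
        have hnA : ¬ A ⊆ T := fun h => (Finset.mem_erase.mp (hT' (h hi'))).1 rfl
        by_cases hBT : B ⊆ T
        · exact Or.inr ⟨hBT, fun v hv => (Finset.mem_erase.mp (hT' hv)).2, hnA⟩
        · obtain ⟨b', hb', hb'T⟩ := Finset.not_subset.mp hBT
          refine Or.inl ⟨?_, hnA⟩
          refine ⟨_, ((hS _).mp (hm b'.val (mem_st.mp hb'))).elim (fun h => absurd h (by simp)) (fun h => h.1), ?_⟩
          exact hxT b' T (fun v hv => (Finset.mem_erase.mp (hT' hv)).2) hb'T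
    · have hnew : ∀ T : Finset (Fin n), T ⊆ A ∪ B → ¬ A ⊆ T → T ∈ Kx n L' := by
        intro T hT hAT
        obtain ⟨a', ha', ha'T⟩ := Finset.not_subset.mp hAT
        exact ⟨_, (hL' _).mpr (Or.inr ⟨a'.val, mem_st.mp ha', rfl⟩), hxT a' T hT ha'T⟩
      rintro (⟨⟨f, hf, hT⟩, hAT⟩ | ⟨-, hT, hAT⟩)
      · by_cases hf2 : a &&& f = a
        · exact hnew T (fun v hv => hfw f ((hl f hf).1 hf2) v (hT v hv)) hAT
        · exact ⟨f, (hL' f).mpr (Or.inl ((hR f).mpr (Or.inr ⟨hf, hf2⟩))), hT⟩
      · exact hnew T hT hAT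
  rw [key]
  refine hP (Kx n L) A B Kx_down hL hAB ?_ ?_ ?_ ?_ ?_ ?_ ?_
  · rw [st_card hnda fun i hi => lt_of_lt_of_le (hlta i hi) hmn, st_card hndb fun i hi => lt_of_lt_of_le (hltb i hi) hmn, hd]
  · obtain ⟨i, t, hit⟩ := List.exists_cons_of_ne_nil hna
    have hi : i ∈ la := by rw [hit]; exact List.mem_cons_self
    exact ⟨⟨i, lt_of_lt_of_le (hlta i hi) hmn⟩, mem_st.mpr hi⟩
  · obtain ⟨i, t, hit⟩ := List.exists_cons_of_ne_nil hnb
    have hi : i ∈ lb := by rw [hit]; exact List.mem_cons_self
    exact ⟨⟨i, lt_of_lt_of_le (hltb i hi) hmn⟩, mem_st.mpr hi⟩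
  · intro v hv
    rcases Finset.mem_union.mp hv with hv | hv
    · exact hlta _ (mem_st.mp hv)
    · exact hltb _ (mem_st.mp hv)
  · rintro T ⟨f, hf, hT⟩ hAT v hv
    exact hfw f ((hl f hf).1 ((hfA f).mpr fun v hv => hT v (hAT hv))) v (hT v hv)
  · intro b' hb'
    refine ⟨_, ((hS _).mp (hm b'.val (mem_st.mp hb'))).elim (fun h => absurd h (by simp)) (fun h => h.1), ?_⟩
    exact hxT b' _ (Finset.erase_subset _ _) (Finset.notMem_erase _ _)
  · rintro ⟨f, hf, hT⟩
    by_cases hf2 : a &&& f = a
    · have hfS : f ∈ S := (hS f).mpr (Or.inr ⟨hf, hf2⟩)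
      apply hnw f hfS
      have hfw' := (hl f hf).1 hf2
      apply Nat.eq_of_testBit_eq
      intro i
      have h1 : (f ||| w).testBit i = w.testBit i := by rw [hfw']
      rw [Nat.testBit_or] at h1
      by_cases hi : w.testBit i = true
      · rw [hi]
        rw [hw i] at hi
        simp only [Bool.or_eq_true, decide_eq_true_eq] at hi
        rcases hi with hi | hi
        · exact (land_iff ha).mp hf2 i hi
        · have := hT ⟨i, lt_of_lt_of_le (hltb i hi) hmn⟩ (mem_st.mpr hi)
          exact this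
      · simp only [Bool.not_eq_true] at hi
        rw [hi] at h1 ⊢
        simpa using h1
    · exact (hl f hf).2 hf2 ((hfB f).mpr hT)

theorem run_ok {n m d : ℕ} (hmn : m ≤ n) {P : Set (Finset (Fin n)) → Prop} (hP : Cl n m d P)
    (l : List (List ℕ × List ℕ)) : ∀ (L : List ℕ) (c : List ℕ → Bool), run m d l L c = true → P (Kx n L) →
    ∃ L', c L' = true ∧ P (Kx n L') := by
  induction l with
  | nil =>
    intro L c h hL
    exact ⟨L, h, hL⟩
  | cons mv l ih =>
    intro L c h hL
    obtain ⟨L1, h1, hL1⟩ := step_ok hmn hP mv L _ h hL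
    exact ih L1 c h1 hL1

theorem cmp_ok (l : List ℕ) : ∀ l' : List ℕ, cmp l l' = true → l = l' := by
  induction l with
  | nil =>
    intro l' h
    cases l'
    · rfl
    · exact absurd (show false = true from h) Bool.false_ne_true
  | cons f l ih =>
    intro l' h
    cases l' with
    | nil => exact absurd (show false = true from h) Bool.false_ne_true
    | cons f' l' =>
      have h' : @Bool.rec (fun _ => Bool) false (cmp l l') (Nat.beq f f') = true := h
      obtain ⟨h1, h2⟩ := rec_f h'
      rw [Nat.eq_of_beq_eq_true h1, ih l' h2]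

/-- soundness of the check of a sequence of flips -/
theorem check_ok {n m d : ℕ} (hmn : m ≤ n) {P : Set (Finset (Fin n)) → Prop} (hP : Cl n m d P)
    {L L' : List ℕ} {mv : List (List ℕ × List ℕ)} (h : check m d L mv L' = true) (hL : P (Kx n L)) : P (Kx n L') := by
  obtain ⟨L1, h1, h2⟩ := run_ok hmn hP mv L _ h hL
  rw [← cmp_ok _ _ h1]
  exact h2

theorem sub1_ok {t : ℕ} {L : List ℕ} (h : sub1 t L = true) : ∃ f ∈ L, t &&& f = t := by
  induction L with
  | nil => exact absurd (show false = true from h) Bool.false_ne_true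
  | cons f L ih =>
    have h' : @Bool.rec (fun _ => Bool) (sub1 t L) true (Nat.beq (Nat.land t f) t) = true := h
    cases hf : Nat.beq (Nat.land t f) t with
    | true => exact ⟨f, List.mem_cons_self, Nat.eq_of_beq_eq_true hf⟩
    | false =>
      rw [hf] at h'
      obtain ⟨g, hg, hg2⟩ := ih h'
      exact ⟨g, List.mem_cons_of_mem _ hg, hg2⟩

/-- the sets with the masks in the list `l` are faces -/
theorem subs_ok {l L : List ℕ} (h : subs l L = true) : ∀ t ∈ l, ∃ f ∈ L, t &&& f = t := by
  induction l with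
  | nil => simp
  | cons t l ih =>
    have h' : @Bool.rec (fun _ => Bool) false (subs l L) (sub1 t L) = true := h
    obtain ⟨h1, h2⟩ := rec_f h'
    intro s hs
    rcases List.mem_cons.mp hs with rfl | hs
    · exact sub1_ok h1
    · exact ih h2 s hs

theorem mem_Kx_of_subs {n : ℕ} {l L : List ℕ} (h : subs l L = true) {t : ℕ} (ht : t ∈ l) {T : Finset (Fin n)}
    (hT : ∀ v ∈ T, t.testBit v.val = true) : T ∈ Kx n L := by
  obtain ⟨f, hf, hf2⟩ := subs_ok h t ht
  refine ⟨f, hf, fun v hv => ?_⟩
  have h1 : (t &&& f).testBit v.val = t.testBit v.val := by rw [hf2]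
  rw [Nat.testBit_and, hT v hv, Bool.true_and] at h1
  exact h1

/-- the start: the boundary of a simplex -/
noncomputable def start (n d : ℕ) (la : List ℕ) (L : List ℕ) : Bool :=
  and (Nat.beq (len la) d) (addl n la 0 fun w => newf w la [] fun R => cmp R L)

theorem start_ok {n m d : ℕ} (hmn : m ≤ n) {la L : List ℕ} (h : start m d la L = true) :
    (st n la).card = d ∧ (∀ v ∈ st n la, v.val < m) ∧ Kx n L = {T | T ⊂ st n la} := by
  obtain ⟨hd, h⟩ := and_t h
  have hd : la.length = d := by
    rw [← len_eq]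
    exact Nat.eq_of_beq_eq_true hd
  obtain ⟨w, h, hw, hnd, hlt, -⟩ := addl_ok _ _ _ _ h
  obtain ⟨R, h, hR⟩ := newf_ok _ _ _ _ h
  have hw : ∀ i, w.testBit i = decide (i ∈ la) := by
    intro i
    rw [hw i, Nat.zero_testBit, Bool.false_or]
  have hRL := cmp_ok _ _ h
  subst hRL
  refine ⟨by rw [st_card hnd fun i hi => lt_of_lt_of_le (hlt i hi) hmn, hd], fun v hv => hlt _ (mem_st.mp hv), ?_⟩
  have hx : ∀ i j, (Nat.xor w (Nat.shiftLeft 1 i)).testBit j = (decide (j ∈ la) ^^ decide (i = j)) := by
    intro i j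
    have : Nat.xor w (Nat.shiftLeft 1 i) = w ^^^ Nat.shiftLeft 1 i := rfl
    rw [this, Nat.testBit_xor, sh, hw]
  ext T
  constructor
  · rintro ⟨f, hf, hT⟩
    rcases (hR f).mp hf with hf | ⟨i, hi, rfl⟩
    · exact absurd hf (by simp)
    · rw [Set.mem_setOf_eq, Finset.ssubset_iff_subset_ne]
      constructor
      · intro v hv
        have h1 := hT v hv
        rw [hx] at h1
        rw [mem_st]
        by_cases hv2 : i = v.val
        · rw [← hv2]
          exact hi
        · simpa [hv2] using h1
      · intro he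
        have h1 := hT ⟨i, lt_of_lt_of_le (hlt i hi) hmn⟩ (by rw [he]; exact mem_st.mpr hi)
        rw [hx] at h1
        simp [hi] at h1
  · intro hT
    rw [Set.mem_setOf_eq, Finset.ssubset_iff_subset_ne] at hT
    obtain ⟨hT, hne⟩ := hT
    obtain ⟨i, hi, hiT⟩ := Finset.not_subset.mp (fun h => hne (Finset.Subset.antisymm hT h))
    refine ⟨_, (hR _).mpr (Or.inr ⟨i.val, mem_st.mp hi, rfl⟩), ?_⟩
    intro v hv
    rw [hx]
    have h1 := mem_st.mp (hT hv)
    have h2 : ¬ i.val = v.val := fun he => hiT (by rw [Fin.ext he]; exact hv)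
    simp [h1, h2]

end Pool.Agent.V8H50.FL
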