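import Mathlib

/-!
# A kernel-fast checker for sequences of bistellar flips of simplicial complexes

The facets are natural numbers (bitsets). A flip `(A, B)` removes the facets which contain `A` and adds the facets
`(A ∪ B) \ {a}` with `a ∈ A`.
-/

set_option autoImplicit false

namespace Pool.Agent.V8H50.FL

/-- evaluate the number first -/
noncomputable def force (n : ℕ) (c : ℕ → Bool) : Bool := @Nat.rec (fun _ => Bool) (c 0) (fun m _ => c (Nat.succ m)) n

/-- add the elements of the list to the set `w`, they have to be new and smaller than `n` -/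
noncomputable def addl (n : ℕ) (l : List ℕ) : ℕ → (ℕ → Bool) → Bool :=
  @List.rec ℕ (fun _ => ℕ → (ℕ → Bool) → Bool) (fun w c => c w)
    (fun i _ ih w c => @Bool.rec (fun _ => Bool) false
      (force (Nat.lor w (Nat.shiftLeft 1 i)) fun w' => ih w' c)
      (and (Nat.ble (Nat.succ i) n) (Nat.beq (Nat.land w (Nat.shiftLeft 1 i)) 0))) l

/-- split the facets into those which contain `a` (they have to be contained in `w`) and the other ones (they must
not contain `b`) -/
noncomputable def pass (a b w : ℕ) (l : List ℕ) : List ℕ → List ℕ → (List ℕ → List ℕ → Bool) → Bool :=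
  @List.rec ℕ (fun _ => List ℕ → List ℕ → (List ℕ → List ℕ → Bool) → Bool) (fun S R c => c S R)
    (fun f _ ih S R c => @Bool.rec (fun _ => Bool)
      (@Bool.rec (fun _ => Bool) (ih S (f :: R) c) false (Nat.beq (Nat.land b f) b))
      (@Bool.rec (fun _ => Bool) false (ih (f :: S) R c) (Nat.beq (Nat.lor f w) w))
      (Nat.beq (Nat.land a f) a)) l

/-- `f` is in the list -/
noncomputable def mem (f : ℕ) (l : List ℕ) : Bool :=
  @List.rec ℕ (fun _ => Bool) false (fun g _ ih => @Bool.rec (fun _ => Bool) ih true (Nat.beq f g)) l

/-- `w \ {i}` is in the list `S` for all `i` in the list -/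
noncomputable def memB (w : ℕ) (S : List ℕ) (l : List ℕ) : Bool :=
  @List.rec ℕ (fun _ => Bool) true (fun i _ ih => @Bool.rec (fun _ => Bool) false ih
    (force (Nat.xor w (Nat.shiftLeft 1 i)) fun f => mem f S)) l

/-- no element of the list is `w` -/
noncomputable def notw (w : ℕ) (l : List ℕ) : Bool :=
  @List.rec ℕ (fun _ => Bool) true (fun f _ ih => @Bool.rec (fun _ => Bool) ih false (Nat.beq f w)) l

/-- add the facets `w \ {i}` -/
noncomputable def newf (w : ℕ) (l : List ℕ) : List ℕ → (List ℕ → Bool) → Bool :=
  @List.rec ℕ (fun _ => List ℕ → (List ℕ → Bool) → Bool) (fun R c => c R)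
    (fun i _ ih R c => force (Nat.xor w (Nat.shiftLeft 1 i)) fun f => ih (f :: R) c) l

/-- the list is not empty -/
noncomputable def ne (l : List ℕ) : Bool := @List.rec ℕ (fun _ => Bool) false (fun _ _ _ => true) l

/-- the length -/
noncomputable def len (l : List ℕ) : ℕ := @List.rec ℕ (fun _ => ℕ) 0 (fun _ _ ih => Nat.succ ih) l

/-- one flip; `n` is the number of vertices, `d` the number of the vertices of a facet plus one -/
noncomputable def step (n d : ℕ) (mv : List ℕ × List ℕ) (L : List ℕ) (c : List ℕ → Bool) : Bool :=
  @Prod.rec (List ℕ) (List ℕ) (fun _ => Bool) (fun la lb =>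
    @Bool.rec (fun _ => Bool) false
      (addl n la 0 fun a => addl n lb 0 fun b => addl n lb a fun w => pass a b w L [] [] fun S R =>
        @Bool.rec (fun _ => Bool) false (newf w la R c) (and (memB w S lb) (notw w S)))
      (and (ne la) (and (ne lb) (Nat.beq (Nat.add (len la) (len lb)) d)))) mv

/-- all the flips -/
noncomputable def run (n d : ℕ) (l : List (List ℕ × List ℕ)) : List ℕ → (List ℕ → Bool) → Bool :=
  @List.rec (List ℕ × List ℕ) (fun _ => List ℕ → (List ℕ → Bool) → Bool) (fun L c => c L)
    (fun mv _ ih L c => step n d mv L fun L' => ih L' c) l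

/-- the two lists are equal -/
noncomputable def cmp (l : List ℕ) : List ℕ → Bool :=
  @List.rec ℕ (fun _ => List ℕ → Bool) (fun l' => @List.rec ℕ (fun _ => Bool) true (fun _ _ _ => false) l')
    (fun f _ ih l' => @List.rec ℕ (fun _ => Bool) false (fun f' t _ => @Bool.rec (fun _ => Bool) false (ih t) (Nat.beq f f')) l') l

/-- the check: the facets `L'` are obtained from the facets `L` by the flips `mv` -/
noncomputable def check (n d : ℕ) (L : List ℕ) (mv : List (List ℕ × List ℕ)) (L' : List ℕ) : Bool :=
  run n d mv L fun L1 => cmp L1 L'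

/-- all the elements of `l` are contained in an element of `L` -/
noncomputable def sub1 (t : ℕ) (L : List ℕ) : Bool :=
  @List.rec ℕ (fun _ => Bool) false (fun f _ ih => @Bool.rec (fun _ => Bool) ih true (Nat.beq (Nat.land t f) t)) L

/-- all the elements of `l` are contained in an element of `L` -/
noncomputable def subs (l : List ℕ) (L : List ℕ) : Bool :=
  @List.rec ℕ (fun _ => Bool) true (fun t _ ih => @Bool.rec (fun _ => Bool) false ih (sub1 t L)) l

end Pool.Agent.V8H50.FL
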